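import Pool.Agent.R902.Franel3

/-!
# MP_e5500d_nt

With `S_n = ∑_{k=0}^{n-3} (-1)^k C(2k,k) C(n-3,k) C(k,n-3-k)`, `T_m = S_{m+2} + 12 S_{m+1} + 16 S_m`
and `A(N) = ∑_{k=1}^N (-1)^k T_k / k` we prove both parts of the conjecture: `n ∣ A(n)` for every
`n ≥ 1`, and `A(p) ≡ 2p (-1)^{(p+1)/2} (mod p²)` for every odd prime `p`.
-/

namespace Pool.Agent.Results.MP_e5500d_nt.AlternatingFranel

open Finset

/-- `S_n = ∑_{k=0}^{n-3} (-1)^k C(2k,k) C(n-3,k) C(k,n-3-k)` (empty sum for `n < 3`). -/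
def S (n : ℕ) : ℤ := ∑ k ∈ range (n - 2), (-1) ^ k * ((2 * k).choose k : ℤ) *
  ((n - 3).choose k : ℤ) * (k.choose (n - 3 - k) : ℤ)

/-- `T_m = S_{m+2} + 12 S_{m+1} + 16 S_m`. -/
def T (m : ℕ) : ℤ := S (m + 2) + 12 * S (m + 1) + 16 * S m

/-- `A(N) = ∑_{k=1}^N (-1)^k T_k / k`, a rational number. -/
def A (N : ℕ) : ℚ := ∑ k ∈ Icc 1 N, (-1) ^ k * (T k : ℚ) / k

theorem result :
    (∀ n : ℕ, 1 ≤ n → ∃ z : ℤ, A n = (n : ℚ) * z) ∧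
    (∀ p : ℕ, p.Prime → p ≠ 2 →
      ∃ z : ℤ, A p - 2 * (p : ℚ) * (-1) ^ ((p + 1) / 2) = (p : ℚ) ^ 2 * z) := by
  refine ⟨fun n _ => ⟨_, R902.Franel2.A_eq n⟩, ?_⟩
  intro p hp h2
  haveI : Fact p.Prime := ⟨hp⟩
  have hp2 := hp.two_le
  obtain ⟨n, hn⟩ : ∃ n, p = 2 * n + 1 := by
    rcases hp.eq_two_or_odd with h | h
    · exact absurd h h2
    · exact ⟨p / 2, by omega⟩
  have hn1 : 1 ≤ n := by omega
  have hA := R902.Franel2.A_eq p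
  have hF := R902.Franel3.final p n hn hn1
  set W : ℤ := ∑ m ∈ range p, (-1) ^ (m + 1) * ((p - 1).choose m : ℤ) * R902.Franel2.H m with hW
  have hd : ((W - 2 * (-1) ^ (n + 1) : ℤ) : ZMod p) = 0 := by
    rw [hW]
    push_cast
    rw [hF]
    ring
  obtain ⟨z, hz⟩ := (ZMod.intCast_zmod_eq_zero_iff_dvd _ p).1 hd
  refine ⟨z, ?_⟩
  have e1 : A p = (p : ℚ) * (W : ℚ) := hA
  have e2 : (W : ℚ) = 2 * (-1) ^ (n + 1) + (p : ℚ) * z := by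
    have : W = 2 * (-1) ^ (n + 1) + (p : ℤ) * z := by linarith
    rw [this]
    push_cast
    ring
  rw [e1, e2, show (p + 1) / 2 = n + 1 by omega]
  ring

end Pool.Agent.Results.MP_e5500d_nt.AlternatingFranel
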